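import Pool.Agent.MVS.Stmts
import Pool.Agent.Helper36_RF.Chr
import Pool.Agent.Helper5_RF.Common

/-!
# MVS, row JEQ: the Jacobi equation for variations through geodesics
-/

noncomputable section

open scoped ContDiff Topology RealInnerProductSpace
set_option maxSynthPendingDepth 3
open Set

namespace Pool.Agent.MVS.H67

open Pool.Agent.RF Pool.Agent.RF.H5 Pool.Agent.MVS

theorem jeq : JeqStatement := by
  intro ι _ _ G U hG O c hO hc hm hgeo D hD q hq
  have hCh := chrStatement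
  -- the velocity and the variation field
  obtain ⟨T, hT⟩ : ∃ T : ℝ × ℝ → E ι, T = fun r => fderiv ℝ c r (0, 1) := ⟨_, rfl⟩
  obtain ⟨J, hJ⟩ : ∃ J : ℝ × ℝ → E ι, J = fun r => fderiv ℝ c r (1, 0) := ⟨_, rfl⟩
  have hTr : ∀ r, fderiv ℝ c r (0, 1) = T r := fun r => by rw [hT]
  have hJr : ∀ r, fderiv ℝ c r (1, 0) = J r := fun r => by rw [hJ]
  have hcA : ∀ r ∈ O, ContDiffAt ℝ ∞ c r := fun r hr => hc.contDiffAt (hO.mem_nhds hr)
  have hTA : ∀ r ∈ O, ContDiffAt ℝ ∞ T r := fun r hr => by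
    rw [hT]; exact fd_apply_contDiffAt (hcA r hr) (0, 1)
  have hJA : ∀ r ∈ O, ContDiffAt ℝ ∞ J r := fun r hr => by
    rw [hJ]; exact fd_apply_contDiffAt (hcA r hr) (1, 0)
  have hcd : ∀ r ∈ O, DifferentiableAt ℝ c r := fun r hr => (hcA r hr).differentiableAt (by simp)
  have hTd : ∀ r ∈ O, DifferentiableAt ℝ T r := fun r hr => (hTA r hr).differentiableAt (by simp)
  have hJd : ∀ r ∈ O, DifferentiableAt ℝ J r := fun r hr => (hJA r hr).differentiableAt (by simp)
  have hgeo' : ∀ r ∈ O, fderiv ℝ T r (0, 1) = - chris G (c r) (T r) (T r) := fun r hr => by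
    have := hgeo r hr
    rw [← hT, hTr] at this
    exact this
  -- mixed derivatives
  have hmix : ∀ r ∈ O, fderiv ℝ J r (0, 1) = fderiv ℝ T r (1, 0) := fun r hr => by
    rw [hJ, hT]
    exact fd2_symm' (hcA r hr) (0, 1) (1, 0)
  have hD' : ∀ r ∈ O, D r = fderiv ℝ T r (1, 0) + chris G (c r) (T r) (J r) := fun r hr => by
    rw [← hmix r hr]
    have := hD r hr
    rw [← hJ, hTr, hJr] at this
    exact this
  have hev : D =ᶠ[𝓝 q] fun r => fderiv ℝ T r (1, 0) + chris G (c r) (T r) (J r) := by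
    filter_upwards [hO.mem_nhds hq] with r hr
    exact hD' r hr
  have hcU : c q ∈ U := hm hq
  have hd1 : DifferentiableAt ℝ (fun r => fderiv ℝ T r (1, 0)) q :=
    (fd_apply_contDiffAt (hTA q hq) (1, 0)).differentiableAt (by simp)
  have hd2 : DifferentiableAt ℝ (fun r => chris G (c r) (T r) (J r)) q :=
    (chr_hasFDerivAt_comp hCh hG (hcd q hq).hasFDerivAt (hTd q hq).hasFDerivAt
      (hJd q hq).hasFDerivAt hcU).differentiableAt
  refine ⟨(hd1.add hd2).congr_of_eventuallyEq hev, ?_⟩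
  rw [hTr, hJr, hev.fderiv_eq, fderiv_fun_add hd1 hd2, hD' q hq]
  have e1 : fderiv ℝ (fun r => fderiv ℝ T r (1, 0)) q (0, 1) =
      - (fderiv ℝ (fun z => chris G z (T q) (T q)) (c q) (J q) +
        chris G (c q) (fderiv ℝ T q (1, 0)) (T q) +
        chris G (c q) (T q) (fderiv ℝ T q (1, 0))) := by
    rw [fd2_symm' (hTA q hq) (0, 1) (1, 0)]
    have hev2 : (fun r => fderiv ℝ T r (0, 1)) =ᶠ[𝓝 q] fun r => - chris G (c r) (T r) (T r) := by
      filter_upwards [hO.mem_nhds hq] with r hr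
      exact hgeo' r hr
    rw [hev2.fderiv_eq, fderiv_fun_neg, ← hJr q,
      ← chr_fderiv_comp hCh hG (hcd q hq) (hTd q hq) (hTd q hq) hcU (1, 0)]
    rfl
  have e2 : fderiv ℝ (fun r => chris G (c r) (T r) (J r)) q (0, 1) =
      fderiv ℝ (fun z => chris G z (T q) (J q)) (c q) (T q) +
        chris G (c q) (fderiv ℝ T q (0, 1)) (J q) +
        chris G (c q) (T q) (fderiv ℝ J q (0, 1)) := by
    rw [chr_fderiv_comp hCh hG (hcd q hq) (hTd q hq) (hJd q hq) hcU (0, 1), hTr]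
  have e3 : (fderiv ℝ (fun r => fderiv ℝ T r (1, 0)) q +
      fderiv ℝ (fun r => chris G (c r) (T r) (J r)) q) (0, 1) =
      fderiv ℝ (fun r => fderiv ℝ T r (1, 0)) q (0, 1) +
      fderiv ℝ (fun r => chris G (c r) (T r) (J r)) q (0, 1) := rfl
  rw [e3, e1, e2, hgeo' q hq, hmix q hq, chr_add_right hCh hG hcU, chr_neg_left hCh hG hcU,
    chr_comm hCh hG hcU (fderiv ℝ T q (1, 0)) (T q),
    chr_comm hCh hG hcU (chris G (c q) (T q) (T q)) (J q)]
  unfold riem
  rw [dchr_comm hCh hG hcU (T q) (J q) (T q), chr_comm hCh hG hcU (J q) (T q)]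
  abel

end Pool.Agent.MVS.H67
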