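import Pool.Agent.MVS.Stmts
import Pool.Agent.Helper36_RF.Chr
import Pool.Agent.Helper5_RF.Common

/-!
# MVS, row NOZ: the normal geodesics do not return to the fixed set before time `π`
-/

noncomputable section

open scoped ContDiff Topology RealInnerProductSpace
set_option maxSynthPendingDepth 3
open Set

namespace Pool.Agent.MVS.H67

open Pool.Agent.RF Pool.Agent.RF.H5 Pool.Agent.MVS

theorem line_deriv (σ y : E5) (t : ℝ) : HasDerivAt (fun s : ℝ => σ + s • y) y t := by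
  have h := ((hasDerivAt_id t).smul_const y).const_add σ
  simpa using h

theorem open_pN (κ : Finset (Fin 5)) : IsOpen {z : E5 | pN κ z ≠ 0} :=
  isOpen_ne.preimage (pN κ).continuous

section

variable {G : E5 → Bil E5} {κ : Finset (Fin 5)} {a b : ℝ} {F : E5 → E5} {σ y : E5}

theorem pN_line (hR : RotStatement) (hσ : pP κ σ = 0) (hy : pN κ y = 0) (t : ℝ) :
    pN κ (σ + t • y) = σ := by
  have h := hR.1 κ σ
  rw [hσ, add_zero] at h
  rw [map_add, map_smul, hy, smul_zero, add_zero, h]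

theorem gam_deriv (hR : RotStatement) (hN : NData G κ F) (hσ : pP κ σ = 0) (hσ0 : σ ≠ 0)
    (hy : pN κ y = 0) (t : ℝ) : HasDerivAt (gam F σ y) (Tv F σ y t) t := by
  have hm : pN κ (σ + t • y) ≠ 0 := by rw [pN_line hR hσ hy]; exact hσ0
  have hd : DifferentiableAt ℝ F (σ + t • y) :=
    (hN.smooth.contDiffAt ((open_pN κ).mem_nhds hm)).differentiableAt (by simp)
  exact hd.hasFDerivAt.comp_hasDerivAt t (line_deriv σ y t)

theorem Tv_deriv (hR : RotStatement) (hN : NData G κ F) (hσ : pP κ σ = 0) (hσ0 : σ ≠ 0)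
    (hy : pN κ y = 0) (t : ℝ) : HasDerivAt (Tv F σ y)
      (- chris G (gam F σ y t) (Tv F σ y t) (Tv F σ y t)) t := by
  have hm : pN κ (σ + t • y) ≠ 0 := by rw [pN_line hR hσ hy]; exact hσ0
  have hd : DifferentiableAt ℝ (fun z => fderiv ℝ F z y) (σ + t • y) :=
    (fd_apply_contDiffAt (hN.smooth.contDiffAt ((open_pN κ).mem_nhds hm)) y).differentiableAt
      (by simp)
  have h := hd.hasFDerivAt.comp_hasDerivAt t (line_deriv σ y t)
  rw [hN.geo σ hσ hσ0 y hy t] at h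
  exact h

theorem gam_smooth (hR : RotStatement) (hN : NData G κ F) (hσ : pP κ σ = 0) (hσ0 : σ ≠ 0)
    (hy : pN κ y = 0) : ContDiff ℝ ∞ (gam F σ y) := by
  rw [← contDiffOn_univ]
  refine hN.smooth.comp (t := {z | pN κ z ≠ 0}) ?_ ?_
  · fun_prop
  · intro t _
    show pN κ (σ + t • y) ≠ 0
    rw [pN_line hR hσ hy]
    exact hσ0

theorem gam_mem (hR : RotStatement) (hN : NData G κ F) (hσ : pP κ σ = 0) (hσ0 : σ ≠ 0)
    (hy : pN κ y = 0) (t : ℝ) : gam F σ y t ∈ Om (Fin 5) := by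
  have hm : pN κ (σ + t • y) ≠ 0 := by rw [pN_line hR hσ hy]; exact hσ0
  have h := hN.norm _ hm
  rw [pN_line hR hσ hy] at h
  intro h0
  have h1 : F (σ + t • y) = 0 := h0
  rw [h1, norm_zero] at h
  exact hσ0 (norm_eq_zero.1 h.symm)

end

/-- Cauchy-Schwarz for a positive form -/
theorem cs_form {B : Bil E5} (hs : ∀ v w, B v w = B w v) (hp : ∀ v, v ≠ 0 → 0 < B v v)
    (v w : E5) : B v w ^ 2 ≤ B w w * B v v := by
  by_cases hw : w = 0
  · rw [hw]; simp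
  · have h0 := hp w hw
    have h1 : 0 ≤ B (B w w • v - B v w • w) (B w w • v - B v w • w) := by
      by_cases h : B w w • v - B v w • w = 0
      · rw [h]; simp
      · exact (hp _ h).le
    have h2 : B (B w w • v - B v w • w) (B w w • v - B v w • w) =
        B w w * (B w w * B v v - B v w ^ 2) := by
      simp only [map_sub, map_smul, sub_apply, smul_apply,
        smul_eq_mul]
      rw [hs w v]
      ring
    rw [h2] at h1
    have h3 := nonneg_of_mul_nonneg_right h1 h0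
    linarith

/-- the core, for an abstract one parameter group -/
theorem noz_core (hR : RotStatement) (hM : McoStatement) (hJ : JeqStatement)
    (hC : CctStatement) {G : E5 → Bil E5} {κ : Finset (Fin 5)} {F : E5 → E5}
    (hG : IsMetricOn G (Om (Fin 5))) (hsec : SecLe G) (hN : NData G κ F)
    (R : ℝ → (E5 →L[ℝ] E5)) (A : E5 →L[ℝ] E5) (r9 : ∀ x, R 0 x = x)
    (r10 : ∀ t x y, ⟪R t x, R t y⟫ = (⟪x, y⟫ : ℝ))
    (r12 : ContDiff ℝ ∞ (fun q : ℝ × E5 => R q.1 q.2))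
    (r13 : ∀ t x, HasDerivAt (fun s : ℝ => R s x) (A (R t x)) t)
    (c1 : ∀ x, A x = 0 ↔ pP κ x = 0)
    (E1 : ∀ t : ℝ, ∀ x ∈ Om (Fin 5), ∀ v w, chris G (R t x) (R t v) (R t w) = R t (chris G x v w))
    {σ y : E5} (hσ : pP κ σ = 0) (hσ0 : σ ≠ 0) (hy : pN κ y = 0)
    (hTT' : ∀ t, G (gam F σ y t) (Tv F σ y t) (Tv F σ y t) = 1)
    {t0 : ℝ} (hz0 : 0 < t0) (hzpi : t0 < Real.pi) (hcon : pP κ (F (σ + t0 • y)) = 0) : False := by
  have hCh := chrStatement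
  have r1 := hR.1
  obtain ⟨γ, hγ⟩ : ∃ γ, γ = gam F σ y := ⟨_, rfl⟩
  obtain ⟨T, hT⟩ : ∃ T, T = Tv F σ y := ⟨_, rfl⟩
  have gd : ∀ t, HasDerivAt γ (T t) t := fun t => by
    rw [hγ, hT]; exact gam_deriv hR hN hσ hσ0 hy t
  have Td : ∀ t, HasDerivAt T (- chris G (γ t) (T t) (T t)) t := fun t => by
    rw [hγ, hT]; exact Tv_deriv hR hN hσ hσ0 hy t
  have gs : ContDiff ℝ ∞ γ := by rw [hγ]; exact gam_smooth hR hN hσ hσ0 hy
  have gm : ∀ t, γ t ∈ Om (Fin 5) := fun t => by rw [hγ]; exact gam_mem hR hN hσ hσ0 hy t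
  have hTT : ∀ t, G (γ t) (T t) (T t) = 1 := fun t => by
    rw [hγ, hT]; exact hTT' t
  -- the variation
  obtain ⟨c, hcd⟩ : ∃ c : ℝ × ℝ → E5, c = fun r => R r.1 (γ r.2) := ⟨_, rfl⟩
  have cs : ContDiff ℝ ∞ c := by
    rw [hcd]
    have h2 : ContDiff ℝ ∞ (fun r : ℝ × ℝ => ((r.1, γ r.2) : ℝ × E5)) :=
      contDiff_fst.prodMk (gs.comp contDiff_snd)
    exact ContDiff.comp (g := fun q : ℝ × E5 => R q.1 q.2) r12 h2
  have cm : MapsTo c univ (Om (Fin 5)) := by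
    intro r _ h0
    have h1 : R r.1 (γ r.2) = 0 := by rw [hcd] at h0; exact h0
    have h2 := r10 r.1 (γ r.2) (γ r.2)
    rw [h1, inner_zero_left] at h2
    exact gm r.2 (inner_self_eq_zero.1 h2.symm)
  have ln1 : ∀ r : ℝ × ℝ, HasDerivAt (fun τ : ℝ => (r.1, τ)) ((0 : ℝ), (1 : ℝ)) r.2 := fun r =>
    (hasDerivAt_const r.2 r.1).prodMk (hasDerivAt_id r.2)
  have ln2 : ∀ r : ℝ × ℝ, HasDerivAt (fun τ : ℝ => (τ, r.2)) ((1 : ℝ), (0 : ℝ)) r.1 := fun r =>
    (hasDerivAt_id r.1).prodMk (hasDerivAt_const r.1 r.2)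
  have cT : ∀ r, fderiv ℝ c r (0, 1) = R r.1 (T r.2) := by
    intro r
    have h1 := (cs.differentiable (by simp) r).hasFDerivAt.comp_hasDerivAt (f := fun τ : ℝ => (r.1, τ)) r.2 (ln1 r)
    have h2 := (R r.1).hasFDerivAt.comp_hasDerivAt r.2 (gd r.2)
    have h3 : (c ∘ fun τ : ℝ => (r.1, τ)) = (R r.1) ∘ γ := by
      rw [hcd]; rfl
    rw [h3] at h1
    exact h1.unique h2
  have cJ : ∀ r, fderiv ℝ c r (1, 0) = A (R r.1 (γ r.2)) := by
    intro r
    have h1 := (cs.differentiable (by simp) r).hasFDerivAt.comp_hasDerivAt (f := fun τ : ℝ => (τ, r.2)) r.1 (ln2 r)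
    have h2 := r13 r.1 (γ r.2)
    have h3 : (c ∘ fun τ : ℝ => (τ, r.2)) = fun s : ℝ => R s (γ r.2) := by
      rw [hcd]; rfl
    rw [h3] at h1
    exact h1.unique h2
  have cTT : ∀ r, fderiv ℝ (fun r => fderiv ℝ c r (0, 1)) r (0, 1) =
      R r.1 (- chris G (γ r.2) (T r.2) (T r.2)) := by
    intro r
    have hd : DifferentiableAt ℝ (fun r => fderiv ℝ c r (0, 1)) r :=
      (fd_apply_contDiffAt cs.contDiffAt (0, 1)).differentiableAt (by simp)
    have h1 := hd.hasFDerivAt.comp_hasDerivAt (f := fun τ : ℝ => (r.1, τ)) r.2 (ln1 r)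
    have h2 := (R r.1).hasFDerivAt.comp_hasDerivAt r.2 (Td r.2)
    have h3 : ((fun r => fderiv ℝ c r (0, 1)) ∘ fun τ : ℝ => (r.1, τ)) = (R r.1) ∘ T := by
      funext τ
      exact cT (r.1, τ)
    rw [h3] at h1
    exact h1.unique h2
  have cJT : ∀ r, fderiv ℝ (fun r => fderiv ℝ c r (1, 0)) r (0, 1) =
      A (R r.1 (T r.2)) := by
    intro r
    have hd : DifferentiableAt ℝ (fun r => fderiv ℝ c r (1, 0)) r :=
      (fd_apply_contDiffAt cs.contDiffAt (1, 0)).differentiableAt (by simp)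
    have h1 := hd.hasFDerivAt.comp_hasDerivAt (f := fun τ : ℝ => (r.1, τ)) r.2 (ln1 r)
    have h2 := (A).hasFDerivAt.comp_hasDerivAt r.2
      ((R r.1).hasFDerivAt.comp_hasDerivAt r.2 (gd r.2))
    have h3 : ((fun r => fderiv ℝ c r (1, 0)) ∘ fun τ : ℝ => (r.1, τ)) =
        (A) ∘ (R r.1) ∘ γ := by
      funext τ
      exact cJ (r.1, τ)
    rw [h3] at h1
    exact h1.unique h2
  obtain ⟨D, hDd⟩ : ∃ D : ℝ × ℝ → E5, D = fun q => fderiv ℝ (fun r => fderiv ℝ c r (1, 0)) q (0, 1)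
      + chris G (c q) (fderiv ℝ c q (0, 1)) (fderiv ℝ c q (1, 0)) := ⟨_, rfl⟩
  have hJeq := hJ (Fin 5) G (Om (Fin 5)) hG univ c isOpen_univ cs.contDiffOn cm (by
    intro q _
    rw [cTT q, cT q, map_neg, hcd]
    show - (R q.1) (chris G (γ q.2) (T q.2) (T q.2)) =
      - chris G (R q.1 (γ q.2)) ((R q.1) (T q.2)) ((R q.1) (T q.2))
    rw [E1 q.1 (γ q.2) (gm q.2)]) D (by intro q _; rw [hDd])
  have c0 : ∀ t, c (0, t) = γ t := fun t => by rw [hcd]; exact r9 (γ t)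
  have T0 : ∀ t, fderiv ℝ c (0, t) (0, 1) = T t := fun t => by rw [cT]; exact r9 (T t)
  have J0 : ∀ t, fderiv ℝ c (0, t) (1, 0) = A (γ t) := fun t => by
    rw [cJ]; show A (R 0 (γ t)) = _; rw [r9]
  have D0 : ∀ t, D (0, t) = A (T t) + chris G (γ t) (T t) (A (γ t)) := fun t => by
    rw [hDd]
    show fderiv ℝ (fun r => fderiv ℝ c r (1, 0)) (0, t) (0, 1) +
      chris G (c (0, t)) (fderiv ℝ c (0, t) (0, 1)) (fderiv ℝ c (0, t) (1, 0)) = _
    rw [cJT, c0, T0, J0]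
    show A (R 0 (T t)) + _ = _
    rw [r9]
  -- derivative of `D` along the geodesic
  obtain ⟨D', hD'⟩ : ∃ D' : ℝ → E5, D' = fun t => fderiv ℝ D (0, t) (0, 1) := ⟨_, rfl⟩
  have Dd : ∀ t, HasDerivAt (fun τ => D (0, τ)) (D' t) t := by
    intro t
    have h1 := (hJeq (0, t) (mem_univ _)).1.hasFDerivAt.comp_hasDerivAt
      (f := fun τ : ℝ => ((0 : ℝ), τ)) t (ln1 (0, t))
    rw [hD']
    exact h1
  have Deq : ∀ t, D' t + chris G (γ t) (T t) (D (0, t)) =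
      riem G (γ t) (T t) (A (γ t)) (T t) := by
    intro t
    have h1 := (hJeq (0, t) (mem_univ _)).2
    rw [c0, T0, J0] at h1
    rw [hD']
    exact h1
  have Jd : ∀ t, HasDerivAt (fun τ => A (γ τ)) (A (T t)) t := fun t =>
    (A).hasFDerivAt.comp_hasDerivAt t (gd t)
  have hsym := hG.symm
  -- the functions
  have hα : ∀ t, HasDerivAt (fun τ => G (γ τ) (A (γ τ)) (A (γ τ)))
      (2 * G (γ t) (D (0, t)) (A (γ t))) t := by
    intro t
    have h1 := hM (Fin 5) G (Om (Fin 5)) hG γ (fun τ => A (γ τ)) (fun τ => A (γ τ))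
      (T t) (A (T t)) (A (T t)) t (gm t) (gd t) (Jd t) (Jd t)
    refine h1.congr_deriv ?_
    rw [← D0 t, hsym (γ t) (gm t) (A (γ t)) (D (0, t))]
    ring
  have hβ : ∀ t, HasDerivAt (fun τ => G (γ τ) (D (0, τ)) (A (γ τ)))
      (G (γ t) (riem G (γ t) (T t) (A (γ t)) (T t)) (A (γ t)) +
        G (γ t) (D (0, t)) (D (0, t))) t := by
    intro t
    have h1 := hM (Fin 5) G (Om (Fin 5)) hG γ (fun τ => D (0, τ)) (fun τ => A (γ τ))
      (T t) (D' t) (A (T t)) t (gm t) (gd t) (Dd t) (Jd t)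
    refine h1.congr_deriv ?_
    rw [← D0 t, Deq t]
  have hpos : ∀ t v, 0 ≤ G (γ t) v v := by
    intro t v
    by_cases h : v = 0
    · rw [h]; simp
    · exact (hG.pos _ (gm t) v h).le
  have hσF : γ 0 = σ := by
    rw [hγ]
    show F (σ + (0 : ℝ) • y) = σ
    rw [zero_smul, add_zero, hN.base σ hσ hσ0]
  have hA0 : A (γ 0) = 0 := by rw [hσF]; exact (c1 σ).2 hσ
  have hT0 : T 0 = fderiv ℝ F σ y := by
    rw [hT]
    show fderiv ℝ F (σ + (0 : ℝ) • y) y = _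
    rw [zero_smul, add_zero]
  have hDD : D (0, 0) ≠ 0 := by
    intro h
    rw [D0, hA0, ← chrL_apply hCh hG (gm 0), map_zero, add_zero, c1] at h
    have h2 := hN.dP σ hσ hσ0 y hy
    rw [← hT0] at h2
    have h3 := r1 κ (T 0)
    rw [h, h2, add_zero] at h3
    have h4 := hTT 0
    rw [← h3] at h4
    simp at h4
  have key := hC (fun t => G (γ t) (A (γ t)) (A (γ t)))
    (fun t => G (γ t) (D (0, t)) (A (γ t)))
    (fun t => G (γ t) (riem G (γ t) (T t) (A (γ t)) (T t)) (A (γ t)) +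
        G (γ t) (D (0, t)) (D (0, t)))
    (fun t => G (γ t) (D (0, t)) (D (0, t))) hα hβ (fun t => hpos t _)
    (fun t => cs_form (hsym _ (gm t)) (hG.pos _ (gm t)) _ _) (fun t => hpos t _) (by
      intro t
      have h1 := hsec (γ t) (gm t) (A (γ t)) (T t)
      rw [hTT t, mul_one] at h1
      have h2 : riem G (γ t) (T t) (A (γ t)) (T t) =
          - riem G (γ t) (A (γ t)) (T t) (T t) := riem_antisymm hCh hG (gm t) _ _ _
      have h3 : G (γ t) (riem G (γ t) (T t) (A (γ t)) (T t)) (A (γ t)) =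
          - G (γ t) (riem G (γ t) (A (γ t)) (T t) (T t)) (A (γ t)) := by
        rw [h2, map_neg]
        rfl
      show G (γ t) (D (0, t)) (D (0, t)) - G (γ t) (A (γ t)) (A (γ t)) ≤
        G (γ t) (riem G (γ t) (T t) (A (γ t)) (T t)) (A (γ t)) +
          G (γ t) (D (0, t)) (D (0, t))
      rw [h3]
      have := sq_nonneg (G (γ t) (A (γ t)) (T t))
      linarith) (by show G (γ 0) (A (γ 0)) (A (γ 0)) = 0; rw [hA0]; simp)
    (by show G (γ 0) (D (0, 0)) (A (γ 0)) = 0; rw [hA0]; simp) t0 hz0 hzpi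
  have k2 := key.2
  have hzero : A (γ t0) = 0 := by
    rw [c1, hγ]
    show pP κ (F (σ + t0 • y)) = 0
    exact hcon
  have k3 : G (γ 0) (riem G (γ 0) (T 0) (A (γ 0)) (T 0)) (A (γ 0)) = 0 := by
    rw [hA0]; simp
  have k4 : (0 : ℝ) < G (γ 0) (D (0, 0)) (D (0, 0)) := hG.pos _ (gm 0) _ hDD
  have k5 : 0 < Real.sin t0 := Real.sin_pos_of_pos_of_lt_pi hz0 hzpi
  have k6 : (G (γ 0) (riem G (γ 0) (T 0) (A (γ 0)) (T 0)) (A (γ 0)) +
        G (γ 0) (D (0, 0)) (D (0, 0))) * Real.sin t0 ^ 2 ≤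
      G (γ t0) (A (γ t0)) (A (γ t0)) := k2
  rw [k3, zero_add, hzero] at k6
  have k7 : G (γ t0) (0 : E5) (0 : E5) = 0 := by simp
  rw [k7] at k6
  have k8 : 0 < G (γ 0) (D (0, 0)) (D (0, 0)) * Real.sin t0 ^ 2 := by positivity
  linarith

theorem noz (hR : RotStatement) (hE : EqvStatement) (hM : McoStatement) (hJ : JeqStatement)
    (hC : CctStatement) (hF : FlbStatement) : NozStatement := by
  intro G κ a b F hS hN z hz hz0 hzpi hcon
  obtain ⟨r1, _, _, _, r5, r6, r7, r8, r9, r10, _, r12, r13, r14⟩ := id hR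
  obtain ⟨c1, c2, c3, _⟩ := r14 κ a b hS.cs
  obtain ⟨E1, _, _⟩ := hE G κ a b hS
  -- the geodesic through `z`
  obtain ⟨σ, hσd⟩ : ∃ σ, σ = pN κ z := ⟨_, rfl⟩
  obtain ⟨t0, ht0⟩ : ∃ t0, t0 = ‖pP κ z‖ := ⟨_, rfl⟩
  obtain ⟨y, hyd⟩ : ∃ y, y = t0⁻¹ • pP κ z := ⟨_, rfl⟩
  rw [← ht0] at hz0 hzpi
  have hσ : pP κ σ = 0 := by rw [hσd]; exact r7 κ z
  have hσ0 : σ ≠ 0 := by rw [hσd]; exact hz
  have hy : pN κ y = 0 := by rw [hyd, map_smul, r8, smul_zero]
  have hy1 : ‖y‖ = 1 := by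
    rw [hyd, norm_smul, ← ht0, norm_inv, Real.norm_eq_abs, abs_of_pos hz0,
      inv_mul_cancel₀ hz0.ne']
  have hzz : z = σ + t0 • y := by
    rw [hyd, smul_smul, mul_inv_cancel₀ hz0.ne', one_smul, hσd, r1]
  have hFLB := hF G κ a b F hS hN σ y hσ hσ0 hy hy1
  rw [hzz] at hcon
  exact noz_core hR hM hJ hC hS.cyl.metric hS.sec hN (Rt a b) (Ag a b) (r9 a b) (r10 a b)
    (r12 a b) (r13 a b) c1 E1 hσ hσ0 hy (fun t => (hFLB 0 0 t).1) hz0 hzpi hcon

end Pool.Agent.MVS.H67
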